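import Mathlib

/-!
# Transitivity of rational function fields
-/

namespace Pool.Agent.CUB.H88

open MvPolynomial

theorem clear_den {A K σ : Type} [CommRing A] [IsDomain A] [Field K] [Algebra A K]
    [IsFractionRing A K] (p : MvPolynomial σ K) :
    ∃ (a : MvPolynomial σ A) (d : A), d ≠ 0 ∧
      p * C (algebraMap A K d) = MvPolynomial.map (algebraMap A K) a := by
  let _ := MvPolynomial.algebraMvPolynomial (σ := σ) (R := A) (S := K)
  obtain ⟨⟨a, ⟨d, hd⟩⟩, h⟩ := IsLocalization.surj
    (Submonoid.map (C (σ := σ)) (nonZeroDivisors A)) p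
  obtain ⟨d', hd', rfl⟩ := hd
  refine ⟨a, d', nonZeroDivisors.ne_zero hd', ?_⟩
  simp only [MvPolynomial.algebraMap_def, MvPolynomial.map_C] at h
  exact h

theorem frac_iso {A K σ F R' F' : Type} [CommRing A] [IsDomain A] [Field K] [Algebra A K]
    [IsFractionRing A K] [Field F] [Algebra (MvPolynomial σ K) F]
    [IsFractionRing (MvPolynomial σ K) F] [CommRing R'] [Field F'] [Algebra R' F']
    [IsFractionRing R' F'] (φ : MvPolynomial σ A ≃+* R') :
    ∃ e : F ≃+* F', ∀ a : MvPolynomial σ A,
      e (algebraMap (MvPolynomial σ K) F (MvPolynomial.map (algebraMap A K) a)) =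
        algebraMap R' F' (φ a) := by
  obtain ⟨g, hg⟩ : ∃ g : MvPolynomial σ A →+* F,
      g = (algebraMap (MvPolynomial σ K) F).comp (MvPolynomial.map (algebraMap A K)) := ⟨_, rfl⟩
  have hinj : Function.Injective g := by
    rw [hg, RingHom.coe_comp]
    exact (IsFractionRing.injective _ _).comp
      (MvPolynomial.map_injective _ (IsFractionRing.injective _ _))
  let alg : Algebra (MvPolynomial σ A) F := g.toAlgebra
  have halg : ∀ a, algebraMap (MvPolynomial σ A) F a = g a := fun a => rfl
  have hf : FaithfulSMul (MvPolynomial σ A) F :=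
    (faithfulSMul_iff_algebraMap_injective _ _).2 hinj
  have hfr : IsFractionRing (MvPolynomial σ A) F := by
    apply IsFractionRing.of_field
    intro z
    obtain ⟨p, q, hq, rfl⟩ := IsFractionRing.div_surjective (A := MvPolynomial σ K) z
    obtain ⟨a, d, hd, hp⟩ := clear_den (A := A) p
    obtain ⟨b, d', hd', hq'⟩ := clear_den (A := A) q
    refine ⟨a * C d', b * C d, ?_⟩
    rw [halg, halg, hg]
    simp only [RingHom.comp_apply, map_mul, MvPolynomial.map_C]
    rw [← hp, ← hq']
    simp only [map_mul]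
    have h1 : ∀ d : A, d ≠ 0 →
        algebraMap (MvPolynomial σ K) F (C (algebraMap A K d)) ≠ 0 := by
      intro d hd h
      rw [map_eq_zero_iff _ (IsFractionRing.injective _ _),
        map_eq_zero_iff _ (MvPolynomial.C_injective _ _),
        map_eq_zero_iff _ (IsFractionRing.injective _ _)] at h
      exact hd h
    have h2 : algebraMap (MvPolynomial σ K) F q ≠ 0 :=
      IsFractionRing.to_map_ne_zero_of_mem_nonZeroDivisors hq
    have h3 := h1 d hd
    have h4 := h1 d' hd'
    field_simp
  refine ⟨IsFractionRing.ringEquivOfRingEquiv φ, ?_⟩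
  intro a
  have h1 : algebraMap (MvPolynomial σ K) F (MvPolynomial.map (algebraMap A K) a) =
      algebraMap (MvPolynomial σ A) F a := by
    rw [halg, hg]
    rfl
  rw [h1]
  exact IsFractionRing.ringEquivOfRingEquiv_algebraMap φ a

/-- `k(y)(t) = k(t, y)`: an isomorphism which is the identity on the constants and on the
variables -/
theorem tr (k : Type) [Field k] (m l : ℕ) :
    ∃ e : FractionRing (MvPolynomial (Fin l) (FractionRing (MvPolynomial (Fin m) k))) ≃ₐ[k]
        FractionRing (MvPolynomial (Fin (l + m)) k),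
      (∀ i : Fin l, e (algebraMap (MvPolynomial (Fin l) (FractionRing (MvPolynomial (Fin m) k))) _
        (X i)) = algebraMap (MvPolynomial (Fin (l + m)) k) _ (X (Fin.castAdd m i))) ∧
      ∀ i : Fin m, e (algebraMap (FractionRing (MvPolynomial (Fin m) k)) _
        (algebraMap (MvPolynomial (Fin m) k) _ (X i))) =
          algebraMap (MvPolynomial (Fin (l + m)) k) _ (X (Fin.natAdd l i)) := by
  obtain ⟨φ, hφ⟩ : ∃ φ : MvPolynomial (Fin l) (MvPolynomial (Fin m) k) ≃+*
      MvPolynomial (Fin (l + m)) k,
      φ = ((sumAlgEquiv k (Fin l) (Fin m)).symm.trans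
        (renameEquiv k finSumFinEquiv)).toRingEquiv := ⟨_, rfl⟩
  have φ1 : ∀ c : k, φ (C (C c)) = C c := by
    intro c
    rw [hφ]
    show (renameEquiv k finSumFinEquiv) ((sumAlgEquiv k (Fin l) (Fin m)).symm (C (C c))) = C c
    rw [sumAlgEquiv_symm_C_C, renameEquiv_apply, rename_C]
  have φ2 : ∀ i : Fin l, φ (X i) = X (Fin.castAdd m i) := by
    intro i
    rw [hφ]
    show (renameEquiv k finSumFinEquiv) ((sumAlgEquiv k (Fin l) (Fin m)).symm (X i)) = _
    rw [sumAlgEquiv_symm_X, renameEquiv_apply, rename_X, finSumFinEquiv_apply_left]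
  have φ3 : ∀ i : Fin m, φ (C (X i)) = X (Fin.natAdd l i) := by
    intro i
    rw [hφ]
    show (renameEquiv k finSumFinEquiv) ((sumAlgEquiv k (Fin l) (Fin m)).symm (C (X i))) = _
    rw [sumAlgEquiv_symm_C_X, renameEquiv_apply, rename_X, finSumFinEquiv_apply_right]
  obtain ⟨e, he⟩ := frac_iso (A := MvPolynomial (Fin m) k)
    (K := FractionRing (MvPolynomial (Fin m) k)) (σ := Fin l)
    (F := FractionRing (MvPolynomial (Fin l) (FractionRing (MvPolynomial (Fin m) k))))
    (F' := FractionRing (MvPolynomial (Fin (l + m)) k)) φ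
  have e1 : ∀ c : k, e (algebraMap k _ c) = algebraMap k _ c := by
    intro c
    have h1 := he (C (C c))
    rw [MvPolynomial.map_C, φ1] at h1
    exact h1
  refine ⟨AlgEquiv.ofRingEquiv e1, ?_, ?_⟩
  · intro i
    show e _ = _
    have h1 := he (X i)
    rw [MvPolynomial.map_X, φ2] at h1
    exact h1
  · intro i
    show e _ = _
    have h1 := he (C (X i))
    rw [MvPolynomial.map_C, φ3] at h1
    exact h1

end Pool.Agent.CUB.H88
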