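import Pool.Agent.Helper88_CUB.QP

/-!
# Rational parametrisation of a quadric: a given coordinate does not vanish
-/

namespace Pool.Agent.CUB.H88

open MvPolynomial

/-- the parametrisation with the normalised indices `i0` (coordinate `0`) and `i0.succAbove m`
(coordinate `1`) -/
theorem param (L : Type) [Field L] (l : ℕ) (q : MvPolynomial (Fin (l + 2)) L)
    (hq : q.IsHomogeneous 2) (v : Fin (l + 2) → L) (hv : eval v q = 0)
    (hs : ∃ i, eval v (pderiv i q) ≠ 0) (i0 : Fin (l + 2)) (hi0 : v i0 ≠ 0) (m : Fin (l + 1))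
    (w : Fin (l + 2) → FractionRing (MvPolynomial (Fin l) L))
    (hw : w = i0.insertNth 0 (m.insertNth 1
      fun k => algebraMap (MvPolynomial (Fin l) L) _ (X k))) :
    ∃ B : FractionRing (MvPolynomial (Fin l) L), B ≠ 0 ∧
      ∀ x : Fin (l + 2) → FractionRing (MvPolynomial (Fin l) L),
        (x = fun i => aeval w q * algebraMap L _ (v i) + (-B) * w i) →
        aeval x q = 0 ∧
        ∀ j, x j ≠ 0 → IntermediateField.adjoin L (Set.range fun i => x i / x j) = ⊤ := by
  classical
  obtain ⟨D, hD⟩ : ∃ D : Fin (l + 2) → L, D = fun i => eval v (pderiv i q) := ⟨_, rfl⟩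
  have hDs : ∃ i, D i ≠ 0 := by rw [hD]; exact hs
  have hexp : ∀ (w : Fin (l + 2) → L) (a b : L), eval (fun i => a * v i + b * w i) q =
      a ^ 2 * eval v q + a * b * (∑ i, w i * D i) + b ^ 2 * eval w q := by
    intro w a b
    have := expand (A := L) q hq v w a b
    rw [hD]
    simpa [coe_aeval_eq_eval] using this
  -- Euler
  have heul : ∑ i, v i * D i = 0 := by
    have h1 := hexp v 1 1
    have h2 := hexp v 1 0
    have h3 : eval (fun i => 1 * v i + 1 * v i) q = 0 := by
      have h4 := hexp (fun _ => 0) 2 0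
      have h5 : (fun i => (2 : L) * v i + 0 * (0 : L)) = fun i => 1 * v i + 1 * v i := by
        funext i; ring
      rw [h5] at h4
      rw [h4, hv]
      simp
    rw [h3, hv] at h1
    linear_combination -h1
  obtain ⟨t, ht⟩ : ∃ t : Fin l → FractionRing (MvPolynomial (Fin l) L),
      t = fun k => algebraMap (MvPolynomial (Fin l) L) _ (X k) := ⟨_, rfl⟩
  obtain ⟨e, he⟩ : ∃ e : L →+* FractionRing (MvPolynomial (Fin l) L),
      e = algebraMap L _ := ⟨_, rfl⟩
  rw [← ht] at hw
  have hw0 : w i0 = 0 := by rw [hw, Fin.insertNth_apply_same]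
  have hw1 : w (i0.succAbove m) = 1 := by
    rw [hw, Fin.insertNth_apply_succAbove, Fin.insertNth_apply_same]
  have hwt : ∀ k : Fin l, w (i0.succAbove (m.succAbove k)) = t k := by
    intro k
    rw [hw, Fin.insertNth_apply_succAbove, Fin.insertNth_apply_succAbove]
  obtain ⟨B, hB⟩ : ∃ B : FractionRing (MvPolynomial (Fin l) L), B = ∑ i, w i * e (D i) :=
    ⟨_, rfl⟩
  have hBne : B ≠ 0 := by
    intro h0
    have h1 : B = algebraMap (MvPolynomial (Fin l) L) _
        (C (D (i0.succAbove m)) + ∑ k : Fin l, X k * C (D (i0.succAbove (m.succAbove k)))) := by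
      rw [hB, Fin.sum_univ_succAbove _ i0, hw0, zero_mul, zero_add, Fin.sum_univ_succAbove _ m, hw1,
        one_mul, map_add, map_sum]
      have h2 : ∀ c : L, e c = algebraMap (MvPolynomial (Fin l) L)
          (FractionRing (MvPolynomial (Fin l) L)) (C c) := by
        intro c
        rw [he]
        rfl
      congr 1
      · exact h2 _
      · refine Finset.sum_congr rfl fun k _ => ?_
        rw [hwt, ht, h2, map_mul]
    rw [h1] at h0
    have h2 := (IsFractionRing.injective (MvPolynomial (Fin l) L)
      (FractionRing (MvPolynomial (Fin l) L))) (h0.trans (map_zero _).symm)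
    have h3 : ∀ k : Fin (l + 1), D (i0.succAbove k) = 0 := by
      have h4 := congrArg (eval (fun _ : Fin l => (0 : L))) h2
      simp only [map_add, map_sum, map_mul, eval_C, eval_X, zero_mul, Finset.sum_const_zero,
        add_zero, map_zero] at h4
      intro k
      rcases Fin.eq_self_or_eq_succAbove m k with h | ⟨k, rfl⟩
      · rw [h]; exact h4
      · have h5 := congrArg (eval (Pi.single k (1 : L))) h2
        simp only [map_sum, map_mul, eval_C, eval_X, map_zero, h4, zero_add] at h5
        rw [Finset.sum_eq_single k] at h5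
        · simpa using h5
        · intro b _ hb
          simp [hb]
        · simp
    have h6 : D i0 = 0 := by
      rw [Fin.sum_univ_succAbove _ i0] at heul
      simp only [h3, mul_zero, Finset.sum_const_zero, add_zero] at heul
      exact (mul_eq_zero.1 heul).resolve_left hi0
    obtain ⟨i, hi⟩ := hDs
    rcases Fin.eq_self_or_eq_succAbove i0 i with h | ⟨k, h⟩
    · exact hi (by rw [h]; exact h6)
    · exact hi (by rw [h]; exact h3 k)
  refine ⟨B, hBne, ?_⟩
  intro x hx'
  obtain ⟨Q, hQ⟩ : ∃ Q : FractionRing (MvPolynomial (Fin l) L), Q = aeval w q := ⟨_, rfl⟩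
  have hx : x = fun i => Q * e (v i) + (-B) * w i := by
    rw [hx', hQ, he]
  have hev : ∀ p : MvPolynomial (Fin (l + 2)) L, aeval (fun i => e (v i)) p = e (eval v p) := by
    intro p
    rw [he]
    have h1 := aeval_algebraMap_apply (FractionRing (MvPolynomial (Fin l) L)) v p
    have h2 : aeval v p = eval v p := by
      rw [← coe_aeval_eq_eval]
      rfl
    rw [h2] at h1
    exact h1
  have hxq : aeval x q = 0 := by
    rw [hx, expand q hq (fun i => e (v i)) w Q (-B)]
    simp only [hev]
    have h1 : ∑ i, w i * e (eval v (pderiv i q)) = B := by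
      rw [hB, hD]
    rw [h1, hv, map_zero, ← hQ]
    ring
  have hc : ∀ i, x i - e (v i / v i0) * x i0 = -B * w i := by
    intro i
    rw [hx]
    simp only [hw0, mul_zero, add_zero]
    have h1 : e (v i / v i0) * (Q * e (v i0)) = Q * e (v i) := by
      rw [map_div₀]
      have h2 : e (v i0) ≠ 0 := by
        rw [Ne, map_eq_zero]
        exact hi0
      field_simp
    rw [h1]
    ring
  refine ⟨hxq, ?_⟩
  intro j hj
  obtain ⟨F, hF⟩ : ∃ F : IntermediateField L (FractionRing (MvPolynomial (Fin l) L)),
    F = IntermediateField.adjoin L (Set.range fun i => x i / x j) := ⟨_, rfl⟩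
  rw [← hF]
  have hxF : ∀ i, x i / x j ∈ F := by
    intro i
    rw [hF]
    exact IntermediateField.subset_adjoin _ _ ⟨i, rfl⟩
  have heF : ∀ c : L, e c ∈ F := by
    intro c
    rw [he]
    exact F.algebraMap_mem c
  have hyF : ∀ i, -B * w i / x j ∈ F := by
    intro i
    rw [← hc, sub_div, mul_div_assoc]
    exact F.sub_mem (hxF i) (F.mul_mem (heF _) (hxF i0))
  have htF : ∀ k, t k ∈ F := by
    intro k
    have h1 : t k = (-B * w (i0.succAbove (m.succAbove k)) / x j) /
        (-B * w (i0.succAbove m) / x j) := by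
      rw [hw1, hwt]
      have : -B ≠ 0 := neg_ne_zero.2 hBne
      field_simp
    rw [h1]
    exact F.div_mem (hyF _) (hyF _)
  have hpF : ∀ p : MvPolynomial (Fin l) L,
      algebraMap (MvPolynomial (Fin l) L) (FractionRing (MvPolynomial (Fin l) L)) p ∈ F := by
    intro p
    induction p using MvPolynomial.induction_on with
    | C a =>
      have := heF a
      rw [he] at this
      exact this
    | add p p' hp hp' =>
      rw [map_add]
      exact F.add_mem hp hp'
    | mul_X p k hp =>
      rw [map_mul]
      refine F.mul_mem hp ?_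
      have := htF k
      rw [ht] at this
      exact this
  rw [eq_top_iff]
  intro z _
  obtain ⟨a, b, hb, rfl⟩ := IsFractionRing.div_surjective (A := MvPolynomial (Fin l) L) z
  exact F.div_mem (hpF a) (hpF b)

/-- scaling of a quadratic form -/
theorem scale (L : Type) [Field L] {n : ℕ} (q : MvPolynomial (Fin n) L)
    (hq : q.IsHomogeneous 2) (c : L) (w : Fin n → L) :
    eval (fun i => c * w i) q = c ^ 2 * eval w q := by
  have h := expand (A := L) q hq w (fun _ => 0) c 0
  simpa [coe_aeval_eq_eval] using h

/-- QP with the index `j0` -/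
theorem qp2 (L : Type) [Field L] (l : ℕ) (q : MvPolynomial (Fin (l + 2)) L)
    (hq : q.IsHomogeneous 2) (v : Fin (l + 2) → L) (hv : eval v q = 0)
    (hs : ∃ i, eval v (pderiv i q) ≠ 0) (j0 : Fin (l + 2))
    (hj : v j0 ≠ 0 → ∃ w : Fin (l + 2) → L, w j0 = 0 ∧ eval w q ≠ 0) :
    ∃ x : Fin (l + 2) → FractionRing (MvPolynomial (Fin l) L),
      x j0 ≠ 0 ∧ aeval x q = 0 ∧
      IntermediateField.adjoin L {z | ∃ i j, z = x i / x j} = ⊤ ∧
      IntermediateField.adjoin L (Set.range fun i => x i / x j0) = ⊤ := by
  classical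
  have hfin : ∀ x : Fin (l + 2) → FractionRing (MvPolynomial (Fin l) L),
      IntermediateField.adjoin L (Set.range fun i => x i / x j0) = ⊤ →
      IntermediateField.adjoin L {z | ∃ i j, z = x i / x j} = ⊤ := by
    intro x hx
    rw [eq_top_iff, ← hx]
    apply IntermediateField.adjoin.mono
    rintro _ ⟨i, rfl⟩
    exact ⟨i, j0, rfl⟩
  by_cases hvj : v j0 = 0
  · -- the point lies in the hyperplane
    have hv0 : ∃ i, v i ≠ 0 := by
      by_contra h
      push Not at h
      obtain ⟨i, hi⟩ := hs
      have hexp : ∀ (w : Fin (l + 2) → L) (a b : L), eval (fun i => a * v i + b * w i) q =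
          a ^ 2 * eval v q + a * b * (∑ i, w i * eval v (pderiv i q)) + b ^ 2 * eval w q := by
        intro w a b
        have := expand (A := L) q hq v w a b
        simpa [coe_aeval_eq_eval] using this
      have h1 := hexp (Pi.single i 1) 1 1
      have h2 : (fun k => (1 : L) * v k + 1 * (Pi.single i 1 : Fin (l + 2) → L) k) =
          Pi.single i 1 := by
        funext k
        rw [h k]; ring
      rw [h2, hv] at h1
      have h3 : ∑ k, (Pi.single i 1 : Fin (l + 2) → L) k * eval v (pderiv k q) =
          eval v (pderiv i q) := by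
        rw [Finset.sum_eq_single i]
        · simp
        · intro b _ hb
          simp [hb]
        · simp
      rw [h3] at h1
      apply hi
      linear_combination -h1
    obtain ⟨i0, hi0⟩ := hv0
    have hne : j0 ≠ i0 := by
      rintro rfl
      exact hi0 hvj
    obtain ⟨m, hm⟩ := (Fin.exists_succAbove_eq hne)
    obtain ⟨w, hw⟩ : ∃ w : Fin (l + 2) → FractionRing (MvPolynomial (Fin l) L),
      w = i0.insertNth 0 (m.insertNth 1
        fun k => algebraMap (MvPolynomial (Fin l) L) _ (X k)) := ⟨_, rfl⟩
    obtain ⟨B, hB, hx⟩ := param L l q hq v hv hs i0 hi0 m w hw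
    obtain ⟨x, hxe⟩ : ∃ x : Fin (l + 2) → FractionRing (MvPolynomial (Fin l) L),
      x = fun i => aeval w q * algebraMap L _ (v i) + (-B) * w i := ⟨_, rfl⟩
    obtain ⟨h1, h2⟩ := hx x hxe
    have hxj : x j0 ≠ 0 := by
      rw [hxe]
      show aeval w q * algebraMap L _ (v j0) + (-B) * w j0 ≠ 0
      have : w j0 = 1 := by
        rw [← hm, hw, Fin.insertNth_apply_succAbove, Fin.insertNth_apply_same]
      rw [this, hvj, map_zero, mul_zero, zero_add, mul_one]
      exact neg_ne_zero.2 hB
    exact ⟨x, hxj, h1, hfin x (h2 j0 hxj), h2 j0 hxj⟩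
  · obtain ⟨w0, hw00, hw0q⟩ := hj hvj
    have hw0ne : ∃ i, w0 i ≠ 0 := by
      by_contra h
      push Not at h
      apply hw0q
      have h1 := scale L q hq 0 w0
      have h2 : (fun i => (0 : L) * w0 i) = w0 := by
        funext i
        rw [h i, mul_zero]
      rw [h2] at h1
      rw [h1]
      ring
    obtain ⟨i1, hi1⟩ := hw0ne
    have hne : i1 ≠ j0 := by
      rintro rfl
      exact hi1 hw00
    obtain ⟨m, hm⟩ := (Fin.exists_succAbove_eq hne)
    obtain ⟨w, hw⟩ : ∃ w : Fin (l + 2) → FractionRing (MvPolynomial (Fin l) L),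
      w = j0.insertNth 0 (m.insertNth 1
        fun k => algebraMap (MvPolynomial (Fin l) L) _ (X k)) := ⟨_, rfl⟩
    obtain ⟨B, hB, hx⟩ := param L l q hq v hv hs j0 hvj m w hw
    obtain ⟨x, hxe⟩ : ∃ x : Fin (l + 2) → FractionRing (MvPolynomial (Fin l) L),
      x = fun i => aeval w q * algebraMap L _ (v i) + (-B) * w i := ⟨_, rfl⟩
    obtain ⟨h1, h2⟩ := hx x hxe
    have hQ : aeval w q ≠ 0 := by
      intro h0
      obtain ⟨wP, hwP⟩ : ∃ wP : Fin (l + 2) → MvPolynomial (Fin l) L,
        wP = j0.insertNth 0 (m.insertNth 1 fun k => X k) := ⟨_, rfl⟩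
      have hcomp : w = fun i => algebraMap (MvPolynomial (Fin l) L)
          (FractionRing (MvPolynomial (Fin l) L)) (wP i) := by
        funext i
        rw [hw, hwP]
        rcases Fin.eq_self_or_eq_succAbove j0 i with h | ⟨i', rfl⟩
        · rw [h, Fin.insertNth_apply_same, Fin.insertNth_apply_same, map_zero]
        · rw [Fin.insertNth_apply_succAbove, Fin.insertNth_apply_succAbove]
          rcases Fin.eq_self_or_eq_succAbove m i' with h | ⟨i'', rfl⟩
          · rw [h, Fin.insertNth_apply_same, Fin.insertNth_apply_same, map_one]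
          · rw [Fin.insertNth_apply_succAbove, Fin.insertNth_apply_succAbove]
      have h3 : aeval wP q = 0 := by
        have h4 := aeval_algebraMap_apply (FractionRing (MvPolynomial (Fin l) L)) wP q
        have h5 : (algebraMap (MvPolynomial (Fin l) L)
            (FractionRing (MvPolynomial (Fin l) L))) (aeval wP q) = 0 := by
          rw [← h4, ← h0, hcomp]
          rfl
        exact (IsFractionRing.injective (MvPolynomial (Fin l) L)
          (FractionRing (MvPolynomial (Fin l) L))) (h5.trans (map_zero _).symm)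
      obtain ⟨s, hs'⟩ : ∃ s : Fin l → L,
        s = fun k => w0 (j0.succAbove (m.succAbove k)) / w0 i1 := ⟨_, rfl⟩
      have h4 : eval s (aeval wP q) = eval (fun i => eval s (wP i)) q := by
        have hall : ∀ p : MvPolynomial (Fin (l + 2)) L,
            eval s (aeval wP p) = eval (fun i => eval s (wP i)) p := by
          intro p
          induction p using MvPolynomial.induction_on with
          | C a => simp
          | add p p' hp hp' => simp only [map_add, hp, hp']
          | mul_X p k hp => simp only [map_mul, hp, aeval_X, eval_X]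
        exact hall q
      have h5 : (fun i => eval s (wP i)) = fun i => (w0 i1)⁻¹ * w0 i := by
        funext i
        rw [hwP]
        rcases Fin.eq_self_or_eq_succAbove j0 i with h | ⟨i', rfl⟩
        · rw [h, Fin.insertNth_apply_same, map_zero, hw00, mul_zero]
        · rw [Fin.insertNth_apply_succAbove]
          rcases Fin.eq_self_or_eq_succAbove m i' with h | ⟨i'', rfl⟩
          · rw [h, Fin.insertNth_apply_same, map_one, hm]
            exact (inv_mul_cancel₀ hi1).symm
          · rw [Fin.insertNth_apply_succAbove, eval_X, hs']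
            simp only
            rw [div_eq_mul_inv, mul_comm]
      rw [h3, map_zero, h5, scale L q hq] at h4
      have h6 : ((w0 i1)⁻¹) ^ 2 ≠ 0 := pow_ne_zero _ (inv_ne_zero hi1)
      exact hw0q ((mul_eq_zero.1 h4.symm).resolve_left h6)
    have hxj : x j0 ≠ 0 := by
      rw [hxe]
      show aeval w q * algebraMap L _ (v j0) + (-B) * w j0 ≠ 0
      have : w j0 = 0 := by
        rw [hw, Fin.insertNth_apply_same]
      rw [this, mul_zero, add_zero]
      apply mul_ne_zero hQ
      rw [Ne, map_eq_zero]
      exact hvj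
    exact ⟨x, hxj, h1, hfin x (h2 j0 hxj), h2 j0 hxj⟩

end Pool.Agent.CUB.H88
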