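import Mathlib

/-!
# Rational parametrisation of a quadric with a nonsingular rational point

`q` is a form of degree two in `l + 2` variables over a field `L` of arbitrary characteristic, `v` a
zero of `q` at which a partial derivative of `q` does not vanish.  Then the quadric has a
parametrisation `x = q(w) v - B(v, w) w` whose ratios generate the rational function field in `l`
variables over `L`.
-/

namespace Pool.Agent.CUB.H88

open MvPolynomial

/-- an exponent of degree two is the sum of two unit vectors -/
theorem deg_two {σ : Type*} (d : σ →₀ ℕ) (h : d.degree = 2) :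
    ∃ i j, d = Finsupp.single i 1 + Finsupp.single j 1 := by
  have key : ∀ (n : ℕ) (d : σ →₀ ℕ), d.degree = n + 1 →
      ∃ i d', d = Finsupp.single i 1 + d' ∧ d'.degree = n := by
    intro n d hd
    have hne : d ≠ 0 := by
      rintro rfl
      simp at hd
    obtain ⟨i, hi⟩ := Finsupp.ne_iff.1 hne
    have h1 : Finsupp.single i 1 ≤ d := by
      rw [Finsupp.single_le_iff]
      exact Nat.one_le_iff_ne_zero.2 hi
    refine ⟨i, d - Finsupp.single i 1, (add_tsub_cancel_of_le h1).symm, ?_⟩
    have h2 := congrArg Finsupp.degree (add_tsub_cancel_of_le h1)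
    rw [map_add, Finsupp.degree_single, hd] at h2
    omega
  obtain ⟨i, d', h1, h2⟩ := key 1 d h
  obtain ⟨j, d'', h3, h4⟩ := key 0 d' h2
  refine ⟨i, j, ?_⟩
  have h5 : d'' = 0 := (Finsupp.degree_eq_zero_iff _).1 h4
  rw [h1, h3, h5, add_zero]

section expand

variable {σ : Type*} [Fintype σ] {L A : Type*} [Field L] [Field A] [Algebra L A]

/-- the quadratic expansion as a property -/
def Ex (v w : σ → A) (a b : A) (q : MvPolynomial σ L) : Prop :=
  aeval (fun i => a * v i + b * w i) q =
      a ^ 2 * aeval v q + a * b * (∑ i, w i * aeval v (pderiv i q)) + b ^ 2 * aeval w q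

theorem ex_zero (v w : σ → A) (a b : A) : Ex v w a b (0 : MvPolynomial σ L) := by
  unfold Ex
  simp

theorem ex_add (v w : σ → A) (a b : A) {p q : MvPolynomial σ L} (hp : Ex v w a b p)
    (hq : Ex v w a b q) : Ex v w a b (p + q) := by
  unfold Ex at *
  simp only [map_add, mul_add, Finset.sum_add_distrib]
  rw [hp, hq]
  ring

theorem ex_mon [DecidableEq σ] (v w : σ → A) (a b : A) (c : L) (i j : σ) :
    Ex v w a b (C c * (X i * X j) : MvPolynomial σ L) := by
  have hp : ∀ k, w k * aeval v (pderiv k (C c * (X i * X j) : MvPolynomial σ L)) =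
      algebraMap L A c * (v j * (if k = i then w k else 0) + v i * (if k = j then w k else 0)) := by
    intro k
    rw [pderiv_C_mul, pderiv_mul, pderiv_X, pderiv_X, map_mul, aeval_C]
    by_cases h1 : k = i <;> by_cases h2 : k = j
    · subst h1; subst h2
      simp
      ring
    · subst h1
      simp [h2]
      ring
    · subst h2
      simp [h1]
      ring
    · simp [h1, h2]
  unfold Ex
  simp only [hp]
  rw [← Finset.mul_sum, Finset.sum_add_distrib, ← Finset.mul_sum, ← Finset.mul_sum,
    Finset.sum_ite_eq', Finset.sum_ite_eq', if_pos (Finset.mem_univ _), if_pos (Finset.mem_univ _)]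
  simp only [map_mul, aeval_C, aeval_X]
  ring

/-- the quadratic expansion -/
theorem expand [DecidableEq σ] (q : MvPolynomial σ L) (hq : q.IsHomogeneous 2) (v w : σ → A) (a b : A) :
    aeval (fun i => a * v i + b * w i) q =
      a ^ 2 * aeval v q + a * b * (∑ i, w i * aeval v (pderiv i q)) + b ^ 2 * aeval w q := by
  have key : Ex v w a b (∑ d ∈ q.support, monomial d (coeff d q)) := by
    have h0 : ∀ s : Finset (σ →₀ ℕ), s ⊆ q.support →
        Ex v w a b (∑ d ∈ s, monomial d (coeff d q)) := by
      intro s
      induction s using Finset.induction_on with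
      | empty =>
        intro _
        simpa using ex_zero v w a b
      | insert d s hd ih =>
        intro hs
        rw [Finset.sum_insert hd]
        refine ex_add v w a b ?_ (ih fun x hx => hs (Finset.mem_insert_of_mem hx))
        have hdeg : d.degree = 2 := by
          have h2 := hq (mem_support_iff.1 (hs (Finset.mem_insert_self d s)))
          rw [Finsupp.degree_eq_weight_one]
          exact h2
        obtain ⟨i, j, hij⟩ := deg_two d hdeg
        have hm : (monomial d (coeff d q) : MvPolynomial σ L) = C (coeff d q) * (X i * X j) := by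
          obtain ⟨c, hc⟩ : ∃ c : L, c = coeff d q := ⟨_, rfl⟩
          rw [← hc, hij]
          simp only [X, C_apply, monomial_mul, zero_add, mul_one]
        rw [hm]
        exact ex_mon v w a b _ i j
    exact h0 _ (Finset.Subset.refl _)
  rw [← q.as_sum] at key
  exact key

end expand

theorem qp (L : Type) [Field L] (l : ℕ) (q : MvPolynomial (Fin (l + 2)) L)
    (hq : q.IsHomogeneous 2) (v : Fin (l + 2) → L) (hv : eval v q = 0)
    (hs : ∃ i, eval v (pderiv i q) ≠ 0) :
    ∃ x : Fin (l + 2) → FractionRing (MvPolynomial (Fin l) L),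
      (∃ j, x j ≠ 0) ∧ aeval x q = 0 ∧
      ∀ j, x j ≠ 0 → IntermediateField.adjoin L (Set.range fun i => x i / x j) = ⊤ := by
  classical
  obtain ⟨D, hD⟩ : ∃ D : Fin (l + 2) → L, D = fun i => eval v (pderiv i q) := ⟨_, rfl⟩
  have hDs : ∃ i, D i ≠ 0 := by rw [hD]; exact hs
  have hexp : ∀ (w : Fin (l + 2) → L) (a b : L), eval (fun i => a * v i + b * w i) q =
      a ^ 2 * eval v q + a * b * (∑ i, w i * D i) + b ^ 2 * eval w q := by
    intro w a b
    have := expand (A := L) q hq v w a b
    rw [hD]
    simpa [coe_aeval_eq_eval] using this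
  -- Euler
  have heul : ∑ i, v i * D i = 0 := by
    have h1 := hexp v 1 1
    have h2 := hexp v 1 0
    have h3 : eval (fun i => 1 * v i + 1 * v i) q = 0 := by
      have h4 := hexp (fun _ => 0) 2 0
      have h5 : (fun i => (2 : L) * v i + 0 * (0 : L)) = fun i => 1 * v i + 1 * v i := by
        funext i; ring
      rw [h5] at h4
      rw [h4, hv]
      simp
    rw [h3, hv] at h1
    linear_combination -h1
  -- `v ≠ 0`
  have hv0 : ∃ i, v i ≠ 0 := by
    by_contra h
    push Not at h
    obtain ⟨i, hi⟩ := hDs
    have h1 := hexp (Pi.single i 1) 1 1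
    have h2 : (fun k => (1 : L) * v k + 1 * (Pi.single i 1 : Fin (l + 2) → L) k) =
        Pi.single i 1 := by
      funext k
      rw [h k]; ring
    rw [h2, hv] at h1
    have h3 : ∑ k, (Pi.single i 1 : Fin (l + 2) → L) k * D k = D i := by
      rw [Finset.sum_eq_single i]
      · simp
      · intro b _ hb
        simp [hb]
      · simp
    rw [h3] at h1
    apply hi
    linear_combination -h1
  obtain ⟨i0, hi0⟩ := hv0
  obtain ⟨K, hK⟩ : ∃ K : Type, K = FractionRing (MvPolynomial (Fin l) L) := ⟨_, rfl⟩
  obtain ⟨t, ht⟩ : ∃ t : Fin l → FractionRing (MvPolynomial (Fin l) L),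
      t = fun k => algebraMap (MvPolynomial (Fin l) L) _ (X k) := ⟨_, rfl⟩
  obtain ⟨e, he⟩ : ∃ e : L →+* FractionRing (MvPolynomial (Fin l) L),
      e = algebraMap L _ := ⟨_, rfl⟩
  obtain ⟨w, hw⟩ : ∃ w : Fin (l + 2) → FractionRing (MvPolynomial (Fin l) L),
      w = i0.insertNth 0 (Fin.cons 1 t) := ⟨_, rfl⟩
  have hw0 : w i0 = 0 := by rw [hw, Fin.insertNth_apply_same]
  have hw1 : w (i0.succAbove 0) = 1 := by
    rw [hw, Fin.insertNth_apply_succAbove, Fin.cons_zero]
  have hwt : ∀ k : Fin l, w (i0.succAbove k.succ) = t k := by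
    intro k
    rw [hw, Fin.insertNth_apply_succAbove, Fin.cons_succ]
  obtain ⟨B, hB⟩ : ∃ B : FractionRing (MvPolynomial (Fin l) L), B = ∑ i, w i * e (D i) :=
    ⟨_, rfl⟩
  have hBne : B ≠ 0 := by
    intro h0
    have h1 : B = algebraMap (MvPolynomial (Fin l) L) _
        (C (D (i0.succAbove 0)) + ∑ k : Fin l, X k * C (D (i0.succAbove k.succ))) := by
      rw [hB, Fin.sum_univ_succAbove _ i0, hw0, zero_mul, zero_add, Fin.sum_univ_succ, hw1,
        one_mul, map_add, map_sum]
      have h2 : ∀ c : L, e c = algebraMap (MvPolynomial (Fin l) L)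
          (FractionRing (MvPolynomial (Fin l) L)) (C c) := by
        intro c
        rw [he]
        rfl
      congr 1
      · exact h2 _
      · refine Finset.sum_congr rfl fun k _ => ?_
        rw [hwt, ht, h2, map_mul]
    rw [h1] at h0
    have h2 := (IsFractionRing.injective (MvPolynomial (Fin l) L)
      (FractionRing (MvPolynomial (Fin l) L))) (h0.trans (map_zero _).symm)
    have h3 : ∀ k : Fin (l + 1), D (i0.succAbove k) = 0 := by
      have h4 := congrArg (eval (fun _ : Fin l => (0 : L))) h2
      simp only [map_add, map_sum, map_mul, eval_C, eval_X, zero_mul, Finset.sum_const_zero,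
        add_zero, map_zero] at h4
      intro k
      refine Fin.cases h4 (fun k => ?_) k
      have h5 := congrArg (eval (Pi.single k (1 : L))) h2
      simp only [map_sum, map_mul, eval_C, eval_X, map_zero, h4, zero_add] at h5
      rw [Finset.sum_eq_single k] at h5
      · simpa using h5
      · intro b _ hb
        simp [hb]
      · simp
    have h6 : D i0 = 0 := by
      rw [Fin.sum_univ_succAbove _ i0] at heul
      simp only [h3, mul_zero, Finset.sum_const_zero, add_zero] at heul
      exact (mul_eq_zero.1 heul).resolve_left hi0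
    obtain ⟨i, hi⟩ := hDs
    rcases Fin.eq_self_or_eq_succAbove i0 i with h | ⟨k, h⟩
    · exact hi (by rw [h]; exact h6)
    · exact hi (by rw [h]; exact h3 k)
  obtain ⟨Q, hQ⟩ : ∃ Q : FractionRing (MvPolynomial (Fin l) L), Q = aeval w q := ⟨_, rfl⟩
  obtain ⟨x, hx⟩ : ∃ x : Fin (l + 2) → FractionRing (MvPolynomial (Fin l) L),
      x = fun i => Q * e (v i) + (-B) * w i := ⟨_, rfl⟩
  have hev : ∀ p : MvPolynomial (Fin (l + 2)) L, aeval (fun i => e (v i)) p = e (eval v p) := by
    intro p
    rw [he]
    have h1 := aeval_algebraMap_apply (FractionRing (MvPolynomial (Fin l) L)) v p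
    have h2 : aeval v p = eval v p := by
      rw [← coe_aeval_eq_eval]
      rfl
    rw [h2] at h1
    exact h1
  have hxq : aeval x q = 0 := by
    rw [hx, expand q hq (fun i => e (v i)) w Q (-B)]
    simp only [hev]
    have h1 : ∑ i, w i * e (eval v (pderiv i q)) = B := by
      rw [hB, hD]
    rw [h1, hv, map_zero, ← hQ]
    ring
  have hc : ∀ i, x i - e (v i / v i0) * x i0 = -B * w i := by
    intro i
    rw [hx]
    simp only [hw0, mul_zero, add_zero]
    have h1 : e (v i / v i0) * (Q * e (v i0)) = Q * e (v i) := by
      rw [map_div₀]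
      have h2 : e (v i0) ≠ 0 := by
        rw [Ne, map_eq_zero]
        exact hi0
      field_simp
    rw [h1]
    ring
  refine ⟨x, ?_, hxq, ?_⟩
  · by_contra h
    push Not at h
    have h1 := hc (i0.succAbove 0)
    rw [h, h, hw1] at h1
    apply hBne
    linear_combination h1
  · intro j hj
    obtain ⟨F, hF⟩ : ∃ F : IntermediateField L (FractionRing (MvPolynomial (Fin l) L)),
      F = IntermediateField.adjoin L (Set.range fun i => x i / x j) := ⟨_, rfl⟩
    rw [← hF]
    have hxF : ∀ i, x i / x j ∈ F := by
      intro i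
      rw [hF]
      exact IntermediateField.subset_adjoin _ _ ⟨i, rfl⟩
    have heF : ∀ c : L, e c ∈ F := by
      intro c
      rw [he]
      exact F.algebraMap_mem c
    have hyF : ∀ i, -B * w i / x j ∈ F := by
      intro i
      rw [← hc, sub_div, mul_div_assoc]
      exact F.sub_mem (hxF i) (F.mul_mem (heF _) (hxF i0))
    have htF : ∀ k, t k ∈ F := by
      intro k
      have h1 : t k = (-B * w (i0.succAbove k.succ) / x j) / (-B * w (i0.succAbove 0) / x j) := by
        rw [hw1, hwt]
        have : -B ≠ 0 := neg_ne_zero.2 hBne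
        field_simp
      rw [h1]
      exact F.div_mem (hyF _) (hyF _)
    have hpF : ∀ p : MvPolynomial (Fin l) L,
        algebraMap (MvPolynomial (Fin l) L) (FractionRing (MvPolynomial (Fin l) L)) p ∈ F := by
      intro p
      induction p using MvPolynomial.induction_on with
      | C a =>
        have := heF a
        rw [he] at this
        exact this
      | add p p' hp hp' =>
        rw [map_add]
        exact F.add_mem hp hp'
      | mul_X p k hp =>
        rw [map_mul]
        refine F.mul_mem hp ?_
        have := htF k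
        rw [ht] at this
        exact this
    rw [eq_top_iff]
    intro z _
    obtain ⟨a, b, hb, rfl⟩ := IsFractionRing.div_surjective (A := MvPolynomial (Fin l) L) z
    exact F.div_mem (hpF a) (hpF b)

end Pool.Agent.CUB.H88
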